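import Mathlib

/-!
# The Fejer kernel `K v = 2 (1 - cos v) / v^2`
-/

open MeasureTheory Filter Topology Set

namespace H70PNT

/-- Fejer kernel. -/
noncomputable def K (v : ℝ) : ℝ := 2 * (1 - Real.cos v) / v ^ 2

lemma K_nonneg (v : ℝ) : 0 ≤ K v := by
  unfold K
  have h := Real.cos_le_one v
  have h1 : 0 ≤ 1 - Real.cos v := by linarith
  positivity

lemma K_le (v : ℝ) : K v ≤ 8 * (1 + v ^ 2)⁻¹ := by
  unfold K
  rcases eq_or_ne v 0 with rfl | hv
  · simp
  have hv2 : 0 < v ^ 2 := by positivity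
  have h1 : 1 - v ^ 2 / 2 ≤ Real.cos v := Real.one_sub_sq_div_two_le_cos
  have h2 : -1 ≤ Real.cos v := Real.neg_one_le_cos v
  rw [div_le_iff₀ hv2, mul_assoc, ← div_eq_inv_mul, mul_div_assoc']
  rw [le_div_iff₀ (by positivity)]
  rcases le_total (v ^ 2) 1 with h | h
  · nlinarith
  · nlinarith

lemma K_measurable : Measurable K := by
  unfold K
  fun_prop

lemma K_integrable : Integrable K := by
  refine Integrable.mono' (g := fun v => 8 * (1 + v ^ 2)⁻¹) ?_ K_measurable.aestronglyMeasurable ?_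
  · exact integrable_inv_one_add_sq.const_mul 8
  · filter_upwards with v
    rw [Real.norm_of_nonneg (K_nonneg v)]
    exact K_le v

lemma K_pos {v : ℝ} (h0 : 0 < v) (h1 : v < 1) : 0 < K v := by
  unfold K
  have : Real.cos v < 1 := by
    rw [← Real.cos_zero]
    exact Real.cos_lt_cos_of_nonneg_of_le_pi_div_two le_rfl (by linarith [Real.pi_gt_three]) h0
  have h1 : 0 < 1 - Real.cos v := by linarith
  positivity

lemma K_int_pos : 0 < ∫ v, K v := by
  rw [integral_pos_iff_support_of_nonneg K_nonneg K_integrable]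
  have : Ioo (0:ℝ) 1 ⊆ Function.support K := fun v hv => (K_pos hv.1 hv.2).ne'
  refine lt_of_lt_of_le ?_ (measure_mono this)
  simp

/-- The real cosine integral. -/
lemma K_eq_real {v : ℝ} (hv : v ≠ 0) :
    K v = 2 * ∫ t in (0:ℝ)..1, (1 - t) * Real.cos (t * v) := by
  have key : ∫ t in (0:ℝ)..1, (1 - t) * Real.cos (t * v)
      = ((1 - 1) * Real.sin (1 * v) / v - Real.cos (1 * v) / v ^ 2)
        - ((1 - 0) * Real.sin (0 * v) / v - Real.cos (0 * v) / v ^ 2) := by
    refine intervalIntegral.integral_eq_sub_of_hasDerivAt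
      (f := fun t => (1 - t) * Real.sin (t * v) / v - Real.cos (t * v) / v ^ 2) ?_ ?_
    · intro t _
      have h1 : HasDerivAt (fun t : ℝ => t * v) v t := by simpa using (hasDerivAt_id t).mul_const v
      have h2 : HasDerivAt (fun t : ℝ => Real.sin (t * v)) (Real.cos (t * v) * v) t := h1.sin
      have h3 : HasDerivAt (fun t : ℝ => Real.cos (t * v)) (-Real.sin (t * v) * v) t := h1.cos
      have h4 : HasDerivAt (fun t : ℝ => 1 - t) (-1) t := by
        simpa using (hasDerivAt_id t).const_sub 1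
      have h5 := ((h4.mul h2).div_const v).sub (h3.div_const (v ^ 2))
      refine h5.congr_deriv ?_
      field_simp
      ring
    · apply Continuous.intervalIntegrable
      fun_prop
  rw [key]
  unfold K
  simp
  field_simp
  ring

/-- The complex exponential form. -/
lemma K_eq {v : ℝ} (hv : v ≠ 0) :
    (K v : ℂ) = ∫ t in (0:ℝ)..1, ((1 - t : ℝ) : ℂ) *
      (Complex.exp (Complex.I * (t * v : ℝ)) + Complex.exp (-(Complex.I * (t * v : ℝ)))) := by
  rw [K_eq_real hv]
  push_cast
  rw [← intervalIntegral.integral_ofReal, ← intervalIntegral.integral_const_mul]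
  congr 1
  ext t
  push_cast
  rw [show Complex.I * (↑t * ↑v) = (↑t * ↑v) * Complex.I by ring, ← neg_mul,
    Complex.exp_mul_I, Complex.exp_mul_I, Complex.cos_neg, Complex.sin_neg]
  ring

end H70PNT
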