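import Mathlib
import Pool.Agent.Lib_helper70.PNT.Kernel

/-!
# The smoothed identity and its limit on the line `Re s = 0`
-/

open MeasureTheory Filter Topology Set Complex

namespace H70PNT

/-- The integrand on the frequency side. -/
noncomputable def fr (G : ℂ → ℂ) (lam y ε t : ℝ) : ℂ :=
  ((1 - t : ℝ) : ℂ) *
    (cexp (I * (t * (lam * y) : ℝ)) * G ((ε : ℂ) + I * (t * lam : ℝ))
      + cexp (-(I * (t * (lam * y) : ℝ))) * G ((ε : ℂ) - I * (t * lam : ℝ)))

section
variable {b : ℝ → ℝ} {C : ℝ} {G : ℂ → ℂ}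

lemma integrable_exp_neg {ε : ℝ} (hε : 0 < ε) :
    IntegrableOn (fun u : ℝ => Real.exp (-(ε * u))) (Ioi 0) := by
  have := integrableOn_exp_mul_Ioi (a := -ε) (by linarith) 0
  refine this.congr_fun (fun x _ => ?_) measurableSet_Ioi
  simp

/-- Fubini step. -/
lemma fubini_step (hbm : Measurable b) (hb : ∀ u, |b u| ≤ C)
    (hL : ∀ s : ℂ, 0 < s.re → ∫ u in Ioi (0:ℝ), (b u : ℂ) * cexp (-(s * u)) = G s)
    {lam : ℝ} (hlam : 0 < lam) (y : ℝ) {ε : ℝ} (hε : 0 < ε) :
    ∫ u in Ioi (0:ℝ), ((b u * Real.exp (-(ε * u)) * K (lam * (y - u)) : ℝ) : ℂ)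
      = ∫ t in Ioc (0:ℝ) 1, fr G lam y ε t := by
  have hC : 0 ≤ C := (abs_nonneg _).trans (hb 0)
  -- the function of two variables
  set F : ℝ → ℝ → ℂ := fun u t => ((b u * Real.exp (-(ε * u)) : ℝ) : ℂ) * (((1 - t : ℝ) : ℂ) *
      (cexp (I * (t * (lam * (y - u)) : ℝ)) + cexp (-(I * (t * (lam * (y - u)) : ℝ))))) with hF
  have h1 : ∫ u in Ioi (0:ℝ), ((b u * Real.exp (-(ε * u)) * K (lam * (y - u)) : ℝ) : ℂ)
      = ∫ u in Ioi (0:ℝ), ∫ t in Ioc (0:ℝ) 1, F u t := by
    refine integral_congr_ae ?_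
    have hne : ∀ᵐ u : ℝ ∂(volume.restrict (Ioi (0:ℝ))), u ≠ y := by
      refine ae_restrict_of_ae ?_
      filter_upwards [(countable_singleton y).ae_notMem volume] with u hu h
      exact hu (by simp [h])
    filter_upwards [hne] with u hu
    have hv : lam * (y - u) ≠ 0 := mul_ne_zero hlam.ne' (sub_ne_zero.mpr (Ne.symm hu))
    rw [ofReal_mul, K_eq hv, intervalIntegral.integral_of_le zero_le_one, ← integral_const_mul]
  rw [h1]
  have hint : Integrable (Function.uncurry F)
      ((volume.restrict (Ioi (0:ℝ))).prod (volume.restrict (Ioc (0:ℝ) 1))) := by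
    have hdom : Integrable (fun z : ℝ × ℝ => (C * Real.exp (-(ε * z.1))) * (2:ℝ))
        ((volume.restrict (Ioi (0:ℝ))).prod (volume.restrict (Ioc (0:ℝ) 1))) := by
      refine Integrable.mul_prod (f := fun u : ℝ => C * Real.exp (-(ε * u)))
        (g := fun _ : ℝ => (2:ℝ)) ?_ ?_
      · exact (integrable_exp_neg hε).const_mul C
      · exact integrable_const _
    refine Integrable.mono' hdom ?_ ?_
    · apply Measurable.aestronglyMeasurable
      rw [hF]
      unfold Function.uncurry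
      fun_prop
    · have : ∀ᵐ z : ℝ × ℝ ∂((volume.restrict (Ioi (0:ℝ))).prod (volume.restrict (Ioc (0:ℝ) 1))),
          z ∈ (Ioi (0:ℝ)) ×ˢ (Ioc (0:ℝ) 1) := by
        rw [Measure.prod_restrict]
        exact ae_restrict_mem (measurableSet_Ioi.prod measurableSet_Ioc)
      filter_upwards [this] with z hz
      obtain ⟨hz1, hz2⟩ := hz
      simp only [Function.uncurry, hF]
      rw [norm_mul, norm_mul, norm_real, norm_real, Real.norm_eq_abs, Real.norm_eq_abs, abs_mul,
        Real.abs_exp]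
      have e1 : |b z.1| * Real.exp (-(ε * z.1)) ≤ C * Real.exp (-(ε * z.1)) :=
        mul_le_mul_of_nonneg_right (hb _) (Real.exp_pos _).le
      have e2 : |1 - z.2| ≤ 1 := by
        rw [abs_le]; constructor <;> linarith [hz2.1, hz2.2]
      have e3 : ‖cexp (I * (z.2 * (lam * (y - z.1)) : ℝ)) +
          cexp (-(I * (z.2 * (lam * (y - z.1)) : ℝ)))‖ ≤ 2 := by
        refine (norm_add_le _ _).trans ?_
        have a1 : ‖cexp (I * (z.2 * (lam * (y - z.1)) : ℝ))‖ = 1 := by
          rw [mul_comm]; exact norm_exp_ofReal_mul_I _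
        have a2 : ‖cexp (-(I * (z.2 * (lam * (y - z.1)) : ℝ)))‖ = 1 := by
          rw [mul_comm, ← neg_mul, ← ofReal_neg]; exact norm_exp_ofReal_mul_I _
        rw [a1, a2]; norm_num
      have e4 : |1 - z.2| * ‖cexp (I * (z.2 * (lam * (y - z.1)) : ℝ)) +
          cexp (-(I * (z.2 * (lam * (y - z.1)) : ℝ)))‖ ≤ 1 * 2 :=
        mul_le_mul e2 e3 (norm_nonneg _) zero_le_one
      calc _ ≤ (C * Real.exp (-(ε * z.1))) * (1 * 2) :=
            mul_le_mul e1 e4 (by positivity) (by positivity)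
        _ = _ := by ring
  rw [integral_integral_swap hint]
  refine setIntegral_congr_fun measurableSet_Ioc (fun t _ => ?_)
  -- inner integral
  have hs1 : 0 < ((ε : ℂ) + I * (t * lam : ℝ)).re := by simp [hε]
  have hs2 : 0 < ((ε : ℂ) - I * (t * lam : ℝ)).re := by simp [hε]
  have bnd : ∀ s : ℂ, s.re = ε → IntegrableOn (fun u : ℝ => (b u : ℂ) * cexp (-(s * u))) (Ioi 0) := by
    intro s hs
    refine Integrable.mono' (g := fun u => C * Real.exp (-(ε * u)))
      ((integrable_exp_neg hε).const_mul C) ?_ ?_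
    · apply Measurable.aestronglyMeasurable
      fun_prop
    · filter_upwards with u
      rw [norm_mul, norm_real, Real.norm_eq_abs, norm_exp]
      have : (-(s * (u:ℂ))).re = -(ε * u) := by simp [hs]
      rw [this]
      exact mul_le_mul_of_nonneg_right (hb _) (Real.exp_pos _).le
  have i1 := bnd ((ε : ℂ) + I * (t * lam : ℝ)) (by simp)
  have i2 := bnd ((ε : ℂ) - I * (t * lam : ℝ)) (by simp)
  simp only [fr]
  rw [← hL _ hs1, ← hL _ hs2, ← integral_const_mul, ← integral_const_mul, ← integral_add,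
    ← integral_const_mul]
  · refine setIntegral_congr_fun measurableSet_Ioi (fun u _ => ?_)
    simp only [hF]
    have x1 : cexp (I * (t * (lam * (y - u)) : ℝ)) * (Real.exp (-(ε * u)) : ℝ)
        = cexp (I * (t * (lam * y) : ℝ)) * cexp (-(((ε : ℂ) + I * (t * lam : ℝ)) * u)) := by
      rw [ofReal_exp, ← Complex.exp_add, ← Complex.exp_add]
      congr 1
      push_cast
      ring
    have x2 : cexp (-(I * (t * (lam * (y - u)) : ℝ))) * (Real.exp (-(ε * u)) : ℝ)
        = cexp (-(I * (t * (lam * y) : ℝ))) * cexp (-(((ε : ℂ) - I * (t * lam : ℝ)) * u)) := by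
      rw [ofReal_exp, ← Complex.exp_add, ← Complex.exp_add]
      congr 1
      push_cast
      ring
    rw [ofReal_mul]
    calc _ = ((1 - t : ℝ) : ℂ) * ((b u : ℂ) * (cexp (I * (t * (lam * (y - u)) : ℝ)) *
            (Real.exp (-(ε * u)) : ℝ)) + (b u : ℂ) * (cexp (-(I * (t * (lam * (y - u)) : ℝ))) *
            (Real.exp (-(ε * u)) : ℝ))) := by ring
      _ = _ := by rw [x1, x2]; ring
  · exact i1.const_mul _
  · exact i2.const_mul _

end

end H70PNT
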