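import Mathlib
import Pool.Agent.Lib_helper70.PNT.Identity

/-!
# Passing to the boundary line and Riemann-Lebesgue
-/

open MeasureTheory Filter Topology Set Complex

namespace H70PNT

section
variable {b : ℝ → ℝ} {C : ℝ} {G : ℂ → ℂ}

lemma K_comp_integrable {lam : ℝ} (hlam : 0 < lam) (y : ℝ) :
    Integrable (fun u : ℝ => K (lam * (y - u))) := by
  have h1 : Integrable (fun u : ℝ => K (lam * u)) := K_integrable.comp_mul_left' hlam.ne'
  exact h1.comp_sub_left y

lemma lhs_tendsto (hbm : Measurable b) (hb : ∀ u, |b u| ≤ C)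
    {lam : ℝ} (hlam : 0 < lam) (y : ℝ) :
    Tendsto (fun ε : ℝ => ∫ u in Ioi (0:ℝ),
      ((b u * Real.exp (-(ε * u)) * K (lam * (y - u)) : ℝ) : ℂ)) (𝓝[>] 0)
      (𝓝 (∫ u in Ioi (0:ℝ), ((b u * K (lam * (y - u)) : ℝ) : ℂ))) := by
  refine tendsto_integral_filter_of_dominated_convergence
    (fun u => C * K (lam * (y - u))) ?_ ?_ ?_ ?_
  · filter_upwards with ε
    apply Measurable.aestronglyMeasurable
    have := K_measurable
    fun_prop
  · filter_upwards [self_mem_nhdsWithin] with ε hε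
    filter_upwards [ae_restrict_mem measurableSet_Ioi] with u hu
    rw [norm_real, Real.norm_eq_abs, abs_mul, abs_mul, Real.abs_exp, abs_of_nonneg (K_nonneg _)]
    refine mul_le_mul_of_nonneg_right ?_ (K_nonneg _)
    have : Real.exp (-(ε * u)) ≤ 1 := by
      apply Real.exp_le_one_iff.mpr
      have : 0 < ε * u := mul_pos hε hu
      linarith
    calc |b u| * Real.exp (-(ε * u)) ≤ |b u| * 1 :=
          mul_le_mul_of_nonneg_left this (abs_nonneg _)
      _ ≤ C := by simpa using hb u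
  · exact ((K_comp_integrable hlam y).const_mul C).restrict
  · filter_upwards with u
    have h : Tendsto (fun ε : ℝ => b u * Real.exp (-(ε * u)) * K (lam * (y - u))) (𝓝[>] 0)
        (𝓝 (b u * Real.exp (-(0 * u)) * K (lam * (y - u)))) := by
      apply Tendsto.mono_left _ nhdsWithin_le_nhds
      apply Continuous.tendsto
      fun_prop
    have h2 := (continuous_ofReal.tendsto _).comp h
    simp only [zero_mul, neg_zero, Real.exp_zero, mul_one] at h2
    exact h2

lemma mem_halfplane {a c : ℝ} (h : 0 ≤ a) : ((a : ℂ) + I * (c : ℝ)) ∈ {s : ℂ | 0 ≤ s.re} := by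
  simp [h]

lemma rhs_tendsto (hG : ContinuousOn G {s : ℂ | 0 ≤ s.re})
    {lam : ℝ} (y : ℝ) :
    Tendsto (fun ε : ℝ => ∫ t in Ioc (0:ℝ) 1, fr G lam y ε t) (𝓝[>] 0)
      (𝓝 (∫ t in Ioc (0:ℝ) 1, fr G lam y 0 t)) := by
  -- two continuous functions on the compact square
  have cont1 : ContinuousOn (fun z : ℝ × ℝ => G ((z.1 : ℂ) + I * (z.2 * lam : ℝ)))
      (Icc (0:ℝ) 1 ×ˢ Icc (0:ℝ) 1) := by
    refine hG.comp (Continuous.continuousOn (by fun_prop)) ?_
    intro z hz
    exact mem_halfplane hz.1.1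
  have cont2 : ContinuousOn (fun z : ℝ × ℝ => G ((z.1 : ℂ) - I * (z.2 * lam : ℝ)))
      (Icc (0:ℝ) 1 ×ˢ Icc (0:ℝ) 1) := by
    refine hG.comp (Continuous.continuousOn (by fun_prop)) ?_
    intro z hz
    simp [hz.1.1]
  obtain ⟨B1, hB1⟩ := (isCompact_Icc.prod isCompact_Icc).exists_bound_of_continuousOn cont1
  obtain ⟨B2, hB2⟩ := (isCompact_Icc.prod isCompact_Icc).exists_bound_of_continuousOn cont2
  have hev : ∀ᶠ ε : ℝ in 𝓝[>] 0, ε ∈ Icc (0:ℝ) 1 := by
    have : Ioo (0:ℝ) 1 ∈ 𝓝[>] (0:ℝ) := Ioo_mem_nhdsGT one_pos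
    filter_upwards [this] with ε hε using ⟨hε.1.le, hε.2.le⟩
  refine tendsto_integral_filter_of_dominated_convergence (fun _ => B1 + B2) ?_ ?_ ?_ ?_
  · filter_upwards [hev] with ε hε
    have hc : ContinuousOn (fun t : ℝ => fr G lam y ε t) (Icc 0 1) := by
      unfold fr
      apply ContinuousOn.mul (Continuous.continuousOn (by fun_prop))
      apply ContinuousOn.add
      · apply ContinuousOn.mul (Continuous.continuousOn (by fun_prop))
        exact cont1.comp (Continuous.continuousOn (by fun_prop : Continuous (fun t : ℝ => (ε, t))))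
          (fun t ht => ⟨hε, ht⟩)
      · apply ContinuousOn.mul (Continuous.continuousOn (by fun_prop))
        exact cont2.comp (Continuous.continuousOn (by fun_prop : Continuous (fun t : ℝ => (ε, t))))
          (fun t ht => ⟨hε, ht⟩)
    exact (hc.mono Ioc_subset_Icc_self).aestronglyMeasurable measurableSet_Ioc
  · filter_upwards [hev] with ε hε
    filter_upwards [ae_restrict_mem measurableSet_Ioc] with t ht
    unfold fr
    have a0 : ‖((1 - t : ℝ) : ℂ)‖ ≤ 1 := by
      rw [norm_real, Real.norm_eq_abs, abs_le]; constructor <;> linarith [ht.1, ht.2]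
    have a1 : ‖cexp (I * (t * (lam * y) : ℝ))‖ = 1 := by
      rw [mul_comm]; exact norm_exp_ofReal_mul_I _
    have a2 : ‖cexp (-(I * (t * (lam * y) : ℝ)))‖ = 1 := by
      rw [mul_comm, ← neg_mul, ← ofReal_neg]; exact norm_exp_ofReal_mul_I _
    have b1 := hB1 (ε, t) ⟨hε, ht.1.le, ht.2⟩
    have b2 := hB2 (ε, t) ⟨hε, ht.1.le, ht.2⟩
    rw [norm_mul]
    calc _ ≤ 1 * ‖cexp (I * (t * (lam * y) : ℝ)) * G ((ε : ℂ) + I * (t * lam : ℝ))
        + cexp (-(I * (t * (lam * y) : ℝ))) * G ((ε : ℂ) - I * (t * lam : ℝ))‖ :=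
          mul_le_mul_of_nonneg_right a0 (norm_nonneg _)
      _ ≤ 1 * (‖cexp (I * (t * (lam * y) : ℝ)) * G ((ε : ℂ) + I * (t * lam : ℝ))‖
        + ‖cexp (-(I * (t * (lam * y) : ℝ))) * G ((ε : ℂ) - I * (t * lam : ℝ))‖) := by
          gcongr; exact norm_add_le _ _
      _ ≤ _ := by
          rw [norm_mul, norm_mul, a1, a2, one_mul, one_mul, one_mul]
          exact add_le_add b1 b2
  · exact integrable_const _
  · filter_upwards [ae_restrict_mem measurableSet_Ioc] with t ht
    have l1 : Tendsto (fun ε : ℝ => G ((ε : ℂ) + I * (t * lam : ℝ))) (𝓝[>] 0)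
        (𝓝 (G (((0:ℝ) : ℂ) + I * (t * lam : ℝ)))) := by
      have := (cont1 (0, t) ⟨⟨le_rfl, zero_le_one⟩, ht.1.le, ht.2⟩)
      have h2 : Tendsto (fun ε : ℝ => (ε, t)) (𝓝[>] 0)
          (𝓝[Icc (0:ℝ) 1 ×ˢ Icc (0:ℝ) 1] (0, t)) := by
        apply tendsto_nhdsWithin_of_tendsto_nhds_of_eventually_within
        · apply Tendsto.mono_left _ nhdsWithin_le_nhds
          exact (Continuous.tendsto (by fun_prop) _)
        · filter_upwards [hev] with ε hε using ⟨hε, ht.1.le, ht.2⟩
      exact this.tendsto.comp h2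
    have l2 : Tendsto (fun ε : ℝ => G ((ε : ℂ) - I * (t * lam : ℝ))) (𝓝[>] 0)
        (𝓝 (G (((0:ℝ) : ℂ) - I * (t * lam : ℝ)))) := by
      have := (cont2 (0, t) ⟨⟨le_rfl, zero_le_one⟩, ht.1.le, ht.2⟩)
      have h2 : Tendsto (fun ε : ℝ => (ε, t)) (𝓝[>] 0)
          (𝓝[Icc (0:ℝ) 1 ×ˢ Icc (0:ℝ) 1] (0, t)) := by
        apply tendsto_nhdsWithin_of_tendsto_nhds_of_eventually_within
        · apply Tendsto.mono_left _ nhdsWithin_le_nhds
          exact (Continuous.tendsto (by fun_prop) _)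
        · filter_upwards [hev] with ε hε using ⟨hε, ht.1.le, ht.2⟩
      exact this.tendsto.comp h2
    unfold fr
    exact ((l1.const_mul _).add (l2.const_mul _)).const_mul _

/-- The identity on the boundary line. -/
lemma boundary_identity (hbm : Measurable b) (hb : ∀ u, |b u| ≤ C)
    (hG : ContinuousOn G {s : ℂ | 0 ≤ s.re})
    (hL : ∀ s : ℂ, 0 < s.re → ∫ u in Ioi (0:ℝ), (b u : ℂ) * cexp (-(s * u)) = G s)
    {lam : ℝ} (hlam : 0 < lam) (y : ℝ) :
    ∫ u in Ioi (0:ℝ), ((b u * K (lam * (y - u)) : ℝ) : ℂ)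
      = ∫ t in Ioc (0:ℝ) 1, fr G lam y 0 t := by
  refine tendsto_nhds_unique (lhs_tendsto hbm hb hlam y) ?_
  refine (rhs_tendsto hG y).congr' ?_
  filter_upwards [self_mem_nhdsWithin] with ε hε
  exact (fubini_step hbm hb hL hlam y hε).symm

/-- Riemann-Lebesgue in the form we need. -/
lemma rl {g : ℝ → ℂ} {lam : ℝ} (hlam : lam ≠ 0) :
    Tendsto (fun y : ℝ => ∫ t, cexp (I * (t * (lam * y) : ℝ)) * g t) atTop (𝓝 0) := by
  have h := Real.tendsto_integral_exp_smul_cocompact g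
  have h2 : Tendsto (fun y : ℝ => -(lam * y / (2 * Real.pi))) atTop (cocompact ℝ) := by
    rcases lt_or_gt_of_ne hlam with hl | hl
    · refine Tendsto.mono_right ?_ atTop_le_cocompact
      have h3 : Tendsto (fun y : ℝ => (-lam / (2 * Real.pi)) * y) atTop atTop :=
        tendsto_id.const_mul_atTop (div_pos (by linarith) (by positivity))
      refine h3.congr (fun y => ?_)
      ring
    · refine Tendsto.mono_right ?_ atBot_le_cocompact
      have h3 : Tendsto (fun y : ℝ => (-lam / (2 * Real.pi)) * y) atTop atBot :=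
        tendsto_id.const_mul_atTop_of_neg (div_neg_of_neg_of_pos (by linarith) (by positivity))
      refine h3.congr (fun y => ?_)
      ring
  refine (h.comp h2).congr (fun y => ?_)
  simp only [Function.comp]
  congr 1
  ext t
  rw [Circle.smul_def, smul_eq_mul, Real.fourierChar_apply]
  congr 2
  push_cast
  have : (Real.pi : ℂ) ≠ 0 := by exact_mod_cast Real.pi_ne_zero
  field_simp

lemma smoothed_tendsto_zero_complex (hbm : Measurable b) (hb : ∀ u, |b u| ≤ C)
    (hG : ContinuousOn G {s : ℂ | 0 ≤ s.re})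
    (hL : ∀ s : ℂ, 0 < s.re → ∫ u in Ioi (0:ℝ), (b u : ℂ) * cexp (-(s * u)) = G s)
    {lam : ℝ} (hlam : 0 < lam) :
    Tendsto (fun y : ℝ => ∫ u in Ioi (0:ℝ), ((b u * K (lam * (y - u)) : ℝ) : ℂ)) atTop (𝓝 0) := by
  set g1 : ℝ → ℂ := (Ioc (0:ℝ) 1).indicator
    (fun t => ((1 - t : ℝ) : ℂ) * G (((0:ℝ) : ℂ) + I * (t * lam : ℝ))) with hg1
  set g2 : ℝ → ℂ := (Ioc (0:ℝ) 1).indicator
    (fun t => ((1 - t : ℝ) : ℂ) * G (((0:ℝ) : ℂ) - I * (t * lam : ℝ))) with hg2
  have c1 : ContinuousOn (fun t : ℝ => ((1 - t : ℝ) : ℂ) * G (((0:ℝ) : ℂ) + I * (t * lam : ℝ)))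
      (Icc 0 1) := by
    apply ContinuousOn.mul (Continuous.continuousOn (by fun_prop))
    exact hG.comp (Continuous.continuousOn (by fun_prop)) (fun t _ => by simp)
  have c2 : ContinuousOn (fun t : ℝ => ((1 - t : ℝ) : ℂ) * G (((0:ℝ) : ℂ) - I * (t * lam : ℝ)))
      (Icc 0 1) := by
    apply ContinuousOn.mul (Continuous.continuousOn (by fun_prop))
    exact hG.comp (Continuous.continuousOn (by fun_prop)) (fun t _ => by simp)
  have h := (rl (g := g1) hlam.ne').add (rl (g := g2) (neg_ne_zero.mpr hlam.ne'))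
  rw [add_zero] at h
  refine h.congr (fun y => ?_)
  rw [boundary_identity hbm hb hG hL hlam y]
  have e1 : ∫ t, cexp (I * (t * (lam * y) : ℝ)) * g1 t
      = ∫ t in Ioc (0:ℝ) 1, cexp (I * (t * (lam * y) : ℝ)) *
        (((1 - t : ℝ) : ℂ) * G (((0:ℝ) : ℂ) + I * (t * lam : ℝ))) := by
    rw [← integral_indicator measurableSet_Ioc]
    congr 1
    ext t
    simp only [hg1, indicator_apply]
    split_ifs <;> simp
  have e2 : ∫ t, cexp (I * (t * (-lam * y) : ℝ)) * g2 t
      = ∫ t in Ioc (0:ℝ) 1, cexp (I * (t * (-lam * y) : ℝ)) *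
        (((1 - t : ℝ) : ℂ) * G (((0:ℝ) : ℂ) - I * (t * lam : ℝ))) := by
    rw [← integral_indicator measurableSet_Ioc]
    congr 1
    ext t
    simp only [hg2, indicator_apply]
    split_ifs <;> simp
  rw [e1, e2, ← integral_add]
  · refine setIntegral_congr_fun measurableSet_Ioc (fun t _ => ?_)
    unfold fr
    have : (I * (t * (-lam * y) : ℝ)) = -(I * (t * (lam * y) : ℝ)) := by push_cast; ring
    simp only [this]
    ring
  · refine IntegrableOn.mono_set ?_ Ioc_subset_Icc_self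
    exact (ContinuousOn.mul (Continuous.continuousOn (by fun_prop)) c1).integrableOn_Icc
  · refine IntegrableOn.mono_set ?_ Ioc_subset_Icc_self
    exact (ContinuousOn.mul (Continuous.continuousOn (by fun_prop)) c2).integrableOn_Icc

/-- The smoothed averages of `b` tend to zero. -/
theorem smoothed_tendsto_zero (hbm : Measurable b) (hb : ∀ u, |b u| ≤ C)
    (hG : ContinuousOn G {s : ℂ | 0 ≤ s.re})
    (hL : ∀ s : ℂ, 0 < s.re → ∫ u in Ioi (0:ℝ), (b u : ℂ) * cexp (-(s * u)) = G s)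
    {lam : ℝ} (hlam : 0 < lam) :
    Tendsto (fun y : ℝ => ∫ u in Ioi (0:ℝ), b u * K (lam * (y - u))) atTop (𝓝 0) := by
  have h := smoothed_tendsto_zero_complex hbm hb hG hL hlam
  have h2 := (continuous_re.tendsto _).comp h
  simp only [zero_re] at h2
  refine h2.congr (fun y => ?_)
  simp only [Function.comp]
  rw [integral_complex_ofReal, ofReal_re]

end

end H70PNT
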