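import Mathlib
import Pool.Agent.Lib_helper70.PNT.Limit

/-!
# The Tauberian step
-/

open MeasureTheory Filter Topology Set

namespace H70PNT

/-- total mass of the kernel -/
noncomputable def KI : ℝ := ∫ v, K v

lemma KI_pos : 0 < KI := K_int_pos

lemma K_scaled_integrable {lam : ℝ} (hlam : 0 < lam) : Integrable (fun v : ℝ => K (lam * v)) :=
  K_integrable.comp_mul_left' hlam.ne'

lemma K_scaled_int {lam : ℝ} (hlam : 0 < lam) : ∫ v, K (lam * v) = KI / lam := by
  rw [Measure.integral_comp_mul_left]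
  simp only [smul_eq_mul, abs_inv, abs_of_pos hlam, KI]
  field_simp

/-- mass of the scaled kernel on `[-δ, δ]` -/
noncomputable def P (lam δ : ℝ) : ℝ := ∫ v in Icc (-δ) δ, K (lam * v)

lemma window_mass (lam δ y : ℝ) :
    ∫ u in Icc (y - δ) (y + δ), K (lam * (y - u)) = P lam δ := by
  unfold P
  rw [← integral_indicator measurableSet_Icc, ← integral_indicator measurableSet_Icc,
    ← integral_sub_left_eq_self _ _ y]
  congr 1
  ext v
  simp only [indicator_apply, mem_Icc]
  have : (y - δ ≤ y - v ∧ y - v ≤ y + δ) ↔ (-δ ≤ v ∧ v ≤ δ) := by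
    constructor <;> rintro ⟨h1, h2⟩ <;> constructor <;> linarith
  simp only [this, sub_sub_cancel]

lemma P_scaled {lam δ : ℝ} (hlam : 0 < lam) :
    lam * P lam δ = ∫ v in Icc (-(lam * δ)) (lam * δ), K v := by
  unfold P
  rw [← integral_indicator measurableSet_Icc, ← integral_indicator measurableSet_Icc]
  have := Measure.integral_comp_mul_left (fun v => (Icc (-(lam * δ)) (lam * δ)).indicator K v) lam
  rw [abs_inv, abs_of_pos hlam, smul_eq_mul] at this
  rw [eq_comm, ← mul_right_inj' (inv_ne_zero hlam.ne'), ← this, ← mul_assoc,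
    inv_mul_cancel₀ hlam.ne', one_mul]
  congr 1
  ext v
  simp only [indicator_apply, mem_Icc]
  have : (-(lam * δ) ≤ lam * v ∧ lam * v ≤ lam * δ) ↔ (-δ ≤ v ∧ v ≤ δ) := by
    constructor
    · rintro ⟨h1, h2⟩
      exact ⟨by nlinarith, by nlinarith⟩
    · rintro ⟨h1, h2⟩
      exact ⟨by nlinarith, by nlinarith⟩
  simp only [this]

lemma P_tendsto {δ : ℝ} (hδ : 0 < δ) :
    Tendsto (fun lam : ℝ => lam * P lam δ) atTop (𝓝 KI) := by
  have h : Tendsto (fun R : ℝ => ∫ v in Icc (-R) R, K v) atTop (𝓝 KI) := by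
    have hc : AECover volume atTop (fun R : ℝ => Icc (-R) R) :=
      aecover_Icc tendsto_neg_atTop_atBot tendsto_id
    exact hc.integral_tendsto_of_countably_generated K_integrable
  have h2 : Tendsto (fun lam : ℝ => lam * δ) atTop atTop := tendsto_id.atTop_mul_const hδ
  refine (h.comp h2).congr' ?_
  filter_upwards [eventually_gt_atTop 0] with lam hlam
  simp only [Function.comp]
  rw [P_scaled hlam]

lemma P_nonneg (lam δ : ℝ) : 0 ≤ P lam δ :=
  setIntegral_nonneg measurableSet_Icc (fun _ _ => K_nonneg _)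

lemma P_le {lam δ : ℝ} (hlam : 0 < lam) : P lam δ ≤ KI / lam := by
  rw [← K_scaled_int hlam]
  exact setIntegral_le_integral (K_scaled_integrable hlam) (ae_of_all _ fun _ => K_nonneg _)

lemma N_tendsto {lam : ℝ} (hlam : 0 < lam) :
    Tendsto (fun y : ℝ => ∫ u in Ioi (0:ℝ), K (lam * (y - u))) atTop (𝓝 (KI / lam)) := by
  have h : Tendsto (fun y : ℝ => ∫ v in Iio y, K (lam * v)) atTop (𝓝 (∫ v, K (lam * v))) := by
    have hc : AECover volume atTop (fun y : ℝ => Iio y) := aecover_Iio tendsto_id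
    exact hc.integral_tendsto_of_countably_generated (K_scaled_integrable hlam)
  rw [K_scaled_int hlam] at h
  refine h.congr (fun y => ?_)
  rw [← integral_indicator measurableSet_Ioi, ← integral_indicator measurableSet_Iio,
    ← integral_sub_left_eq_self _ _ y]
  congr 1
  ext v
  simp only [indicator_apply, mem_Ioi, mem_Iio]
  have : (y - v < y) ↔ (0 < v) := by constructor <;> intro h <;> linarith
  simp only [this]

variable {f : ℝ → ℝ} {C : ℝ}

lemma fK_integrable (hfm : Measurable f) (hf0 : ∀ u, 0 ≤ f u) (hfC : ∀ u, f u ≤ C)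
    {lam : ℝ} (hlam : 0 < lam) (y : ℝ) :
    Integrable (fun u : ℝ => f u * K (lam * (y - u))) := by
  refine Integrable.mono' ((K_comp_integrable hlam y).const_mul C) ?_ ?_
  · have := K_measurable
    apply Measurable.aestronglyMeasurable
    fun_prop
  · filter_upwards with u
    rw [Real.norm_eq_abs, abs_of_nonneg (mul_nonneg (hf0 u) (K_nonneg _))]
    exact mul_le_mul_of_nonneg_right (hfC u) (K_nonneg _)

lemma upper_step (hfm : Measurable f) (hf0 : ∀ u, 0 ≤ f u) (hfC : ∀ u, f u ≤ C)
    (hmono : ∀ u u', 0 ≤ u → u ≤ u' → f u * Real.exp (u - u') ≤ f u')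
    {lam δ : ℝ} (hlam : 0 < lam) (hδ : 0 < δ) {y : ℝ} (hy : δ < y) :
    f (y - δ) * Real.exp (-(2 * δ)) * P lam δ ≤ ∫ u in Ioi (0:ℝ), f u * K (lam * (y - u)) := by
  rw [← window_mass lam δ y, ← integral_const_mul]
  have hsub : Icc (y - δ) (y + δ) ⊆ Ioi (0:ℝ) := fun u hu => by
    have := hu.1
    simp only [mem_Ioi]; linarith
  calc ∫ u in Icc (y - δ) (y + δ), f (y - δ) * Real.exp (-(2 * δ)) * K (lam * (y - u))
      ≤ ∫ u in Icc (y - δ) (y + δ), f u * K (lam * (y - u)) := by
        refine setIntegral_mono_on ?_ ?_ measurableSet_Icc (fun u hu => ?_)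
        · exact ((K_comp_integrable hlam y).const_mul _).integrableOn
        · exact (fK_integrable hfm hf0 hfC hlam y).integrableOn
        · refine mul_le_mul_of_nonneg_right ?_ (K_nonneg _)
          refine le_trans ?_ (hmono (y - δ) u (by linarith) hu.1)
          refine mul_le_mul_of_nonneg_left ?_ (hf0 _)
          apply Real.exp_le_exp.mpr
          linarith [hu.2]
    _ ≤ _ := by
        refine setIntegral_mono_set (fK_integrable hfm hf0 hfC hlam y).integrableOn ?_ ?_
        · exact ae_of_all _ fun u => mul_nonneg (hf0 u) (K_nonneg _)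
        · exact HasSubset.Subset.eventuallyLE hsub

lemma lower_step (hfm : Measurable f) (hf0 : ∀ u, 0 ≤ f u) (hfC : ∀ u, f u ≤ C)
    (hmono : ∀ u u', 0 ≤ u → u ≤ u' → f u * Real.exp (u - u') ≤ f u')
    {lam δ : ℝ} (hlam : 0 < lam) (hδ : 0 < δ) {y : ℝ} (hy : δ < y) :
    ∫ u in Ioi (0:ℝ), f u * K (lam * (y - u)) ≤
      f (y + δ) * Real.exp (2 * δ) * P lam δ + C * (KI / lam - P lam δ) := by
  have hsub : Icc (y - δ) (y + δ) ⊆ Ioi (0:ℝ) := fun u hu => by
    have := hu.1
    simp only [mem_Ioi]; linarith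
  have hI := fK_integrable hfm hf0 hfC hlam y
  have hKI := K_comp_integrable hlam y
  have h1 : ∫ u in Ioi (0:ℝ), f u * K (lam * (y - u)) ≤ ∫ u, f u * K (lam * (y - u)) :=
    setIntegral_le_integral hI (ae_of_all _ fun u => mul_nonneg (hf0 u) (K_nonneg _))
  have h2 : ∫ u, f u * K (lam * (y - u)) = (∫ u in Icc (y - δ) (y + δ), f u * K (lam * (y - u)))
      + ∫ u in (Icc (y - δ) (y + δ))ᶜ, f u * K (lam * (y - u)) :=
    (integral_add_compl measurableSet_Icc hI).symm
  have h3 : ∫ u in Icc (y - δ) (y + δ), f u * K (lam * (y - u))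
      ≤ f (y + δ) * Real.exp (2 * δ) * P lam δ := by
    rw [← window_mass lam δ y, ← integral_const_mul]
    refine setIntegral_mono_on hI.integrableOn (hKI.const_mul _).integrableOn measurableSet_Icc
      (fun u hu => ?_)
    refine mul_le_mul_of_nonneg_right ?_ (K_nonneg _)
    have h4 := hmono u (y + δ) (by linarith [hu.1]) hu.2
    have h5 : f u = f u * Real.exp (u - (y + δ)) * Real.exp (y + δ - u) := by
      rw [mul_assoc, ← Real.exp_add]; simp
    rw [h5]
    refine mul_le_mul h4 ?_ (Real.exp_pos _).le (hf0 _)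
    apply Real.exp_le_exp.mpr
    linarith [hu.1]
  have h4 : ∫ u in (Icc (y - δ) (y + δ))ᶜ, f u * K (lam * (y - u)) ≤ C * (KI / lam - P lam δ) := by
    have h5 : ∫ u in (Icc (y - δ) (y + δ))ᶜ, K (lam * (y - u)) = KI / lam - P lam δ := by
      rw [← window_mass lam δ y, ← K_scaled_int hlam,
        ← integral_sub_left_eq_self (fun v => K (lam * v)) _ y]
      rw [eq_sub_iff_add_eq, add_comm]
      exact integral_add_compl measurableSet_Icc hKI
    rw [← h5, ← integral_const_mul]
    refine setIntegral_mono_on hI.integrableOn (hKI.const_mul _).integrableOn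
      measurableSet_Icc.compl (fun u _ => ?_)
    exact mul_le_mul_of_nonneg_right (hfC u) (K_nonneg _)
  linarith

/-- Tauberian conclusion. -/
theorem tauber (hfm : Measurable f) (hf0 : ∀ u, 0 ≤ f u) (hfC : ∀ u, f u ≤ C)
    (hmono : ∀ u u', 0 ≤ u → u ≤ u' → f u * Real.exp (u - u') ≤ f u')
    (hsm : ∀ lam : ℝ, 0 < lam →
      Tendsto (fun y : ℝ => ∫ u in Ioi (0:ℝ), (f u - 1) * K (lam * (y - u))) atTop (𝓝 0)) :
    Tendsto f atTop (𝓝 1) := by
  have hC : 0 ≤ C := (hf0 0).trans (hfC 0)
  have hKI := KI_pos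
  -- convergence of the smoothed averages of `f`
  have hM : ∀ lam : ℝ, 0 < lam →
      Tendsto (fun y : ℝ => ∫ u in Ioi (0:ℝ), f u * K (lam * (y - u))) atTop (𝓝 (KI / lam)) := by
    intro lam hlam
    have h := (hsm lam hlam).add (N_tendsto hlam)
    rw [zero_add] at h
    refine h.congr (fun y => ?_)
    rw [← integral_add]
    · congr 1
      ext u
      ring
    · have h1 := (fK_integrable hfm hf0 hfC hlam y).sub (K_comp_integrable hlam y)
      refine (h1.congr (ae_of_all _ fun u => ?_)).integrableOn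
      simp only [Pi.sub_apply]; ring
    · exact (K_comp_integrable hlam y).integrableOn
  -- upper bound
  have hup : ∀ η : ℝ, 0 < η → ∀ᶠ y in atTop, f y ≤ (1 + η) ^ 3 := by
    intro η hη
    obtain ⟨δ, hδ, hδe⟩ : ∃ δ : ℝ, 0 < δ ∧ Real.exp (2 * δ) ≤ 1 + η := by
      refine ⟨Real.log (1 + η) / 2, by have := Real.log_pos (show (1:ℝ) < 1 + η by linarith); linarith, ?_⟩
      rw [mul_div_cancel₀ _ (by norm_num : (2:ℝ) ≠ 0), Real.exp_log (by linarith)]
    obtain ⟨lam, hlam, hlamP⟩ : ∃ lam : ℝ, 0 < lam ∧ KI / (1 + η) < lam * P lam δ := by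
      have h1 : KI / (1 + η) < KI := by
        rw [div_lt_iff₀ (by linarith)]; nlinarith
      have := ((P_tendsto hδ).eventually (lt_mem_nhds h1)).and (eventually_gt_atTop 0)
      obtain ⟨lam, h2, h3⟩ := this.exists
      exact ⟨lam, h3, h2⟩
    have hPpos : 0 < P lam δ := by
      have h0 : 0 < lam * P lam δ := lt_trans (by positivity) hlamP
      exact (pos_iff_pos_of_mul_pos h0).mp hlam
    have hev : ∀ᶠ y in atTop, ∫ u in Ioi (0:ℝ), f u * K (lam * (y - u)) < KI / lam * (1 + η) := by
      have h1 : KI / lam < KI / lam * (1 + η) := by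
        have : 0 < KI / lam := by positivity
        nlinarith
      exact (hM lam hlam).eventually (gt_mem_nhds h1)
    have hev2 : ∀ᶠ y in atTop, f (y - δ) ≤ (1 + η) ^ 3 := by
      filter_upwards [hev, eventually_gt_atTop δ] with y h1 h2
      have h3 := upper_step hfm hf0 hfC hmono hlam hδ h2
      have h4 : f (y - δ) * Real.exp (-(2 * δ)) * P lam δ < KI / lam * (1 + η) := lt_of_le_of_lt h3 h1
      have h5 : KI / lam < (1 + η) * P lam δ := by
        rw [div_lt_iff₀ (by linarith)] at hlamP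
        rw [div_lt_iff₀ hlam]
        linarith
      have h6 : f (y - δ) * Real.exp (-(2 * δ)) * P lam δ < (1 + η) * (1 + η) * P lam δ := by
        nlinarith
      have h7 : f (y - δ) * Real.exp (-(2 * δ)) < (1 + η) * (1 + η) := lt_of_mul_lt_mul_right h6 hPpos.le
      have h8 : f (y - δ) = f (y - δ) * Real.exp (-(2 * δ)) * Real.exp (2 * δ) := by
        rw [mul_assoc, ← Real.exp_add]; simp
      rw [h8]
      calc _ ≤ ((1 + η) * (1 + η)) * (1 + η) :=
            mul_le_mul h7.le hδe (Real.exp_pos _).le (by positivity)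
        _ = _ := by ring
    have h9 : Tendsto (fun y : ℝ => y + δ) atTop atTop := tendsto_atTop_add_const_right _ _ tendsto_id
    filter_upwards [h9.eventually hev2] with y hy
    simpa using hy
  -- lower bound
  have hlow : ∀ η : ℝ, 0 < η → ∀ᶠ y in atTop, (1 - η - C * η) / (1 + η) ≤ f y := by
    intro η hη
    obtain ⟨δ, hδ, hδe⟩ : ∃ δ : ℝ, 0 < δ ∧ Real.exp (2 * δ) ≤ 1 + η := by
      refine ⟨Real.log (1 + η) / 2, by have := Real.log_pos (show (1:ℝ) < 1 + η by linarith); linarith, ?_⟩
      rw [mul_div_cancel₀ _ (by norm_num : (2:ℝ) ≠ 0), Real.exp_log (by linarith)]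
    obtain ⟨lam, hlam, hlamP⟩ : ∃ lam : ℝ, 0 < lam ∧ KI * (1 - η) < lam * P lam δ := by
      have h1 : KI * (1 - η) < KI := by nlinarith
      have := ((P_tendsto hδ).eventually (lt_mem_nhds h1)).and (eventually_gt_atTop 0)
      obtain ⟨lam, h2, h3⟩ := this.exists
      exact ⟨lam, h3, h2⟩
    have hIl : 0 < KI / lam := by positivity
    have hev : ∀ᶠ y in atTop, KI / lam * (1 - η) < ∫ u in Ioi (0:ℝ), f u * K (lam * (y - u)) := by
      have h1 : KI / lam * (1 - η) < KI / lam := by nlinarith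
      exact (hM lam hlam).eventually (lt_mem_nhds h1)
    have hev2 : ∀ᶠ y in atTop, (1 - η - C * η) / (1 + η) ≤ f (y + δ) := by
      filter_upwards [hev, eventually_gt_atTop δ] with y h1 h2
      have h3 := lower_step hfm hf0 hfC hmono hlam hδ h2
      have hP1 : P lam δ ≤ KI / lam := P_le hlam
      have hP2 : KI / lam - P lam δ ≤ KI / lam * η := by
        have : KI / lam * (1 - η) < P lam δ := by
          rw [div_mul_eq_mul_div, div_lt_iff₀ hlam]; linarith
        linarith
      have h4 : f (y + δ) * Real.exp (2 * δ) * P lam δ ≤ f (y + δ) * (1 + η) * (KI / lam) := by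
        apply mul_le_mul _ hP1 (P_nonneg _ _) (mul_nonneg (hf0 _) (by linarith))
        exact mul_le_mul_of_nonneg_left hδe (hf0 _)
      have h5 : C * (KI / lam - P lam δ) ≤ C * (KI / lam * η) := mul_le_mul_of_nonneg_left hP2 hC
      have h6 : KI / lam * (1 - η) < f (y + δ) * (1 + η) * (KI / lam) + C * (KI / lam * η) := by
        linarith
      have h7 : (1 - η - C * η) * (KI / lam) < (f (y + δ) * (1 + η)) * (KI / lam) := by nlinarith
      have h8 := lt_of_mul_lt_mul_right h7 hIl.le
      rw [div_le_iff₀ (by linarith)]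
      exact h8.le
    have h9 : Tendsto (fun y : ℝ => y - δ) atTop atTop := by
      simpa [sub_eq_add_neg] using tendsto_atTop_add_const_right atTop (-δ) tendsto_id
    filter_upwards [h9.eventually hev2] with y hy
    simpa using hy
  -- combine
  rw [tendsto_order]
  constructor
  · intro a ha
    have hlim : Tendsto (fun η : ℝ => (1 - η - C * η) / (1 + η)) (𝓝[>] 0) (𝓝 1) := by
      have : Tendsto (fun η : ℝ => (1 - η - C * η) / (1 + η)) (𝓝 0) (𝓝 ((1 - 0 - C * 0) / (1 + 0))) := by
        apply Tendsto.div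
        · exact Continuous.tendsto (by fun_prop) _
        · exact Continuous.tendsto (by fun_prop) _
        · norm_num
      simp only [sub_zero, mul_zero, add_zero, div_one] at this
      exact this.mono_left nhdsWithin_le_nhds
    obtain ⟨η, h1, h2⟩ := ((hlim.eventually (lt_mem_nhds ha)).and self_mem_nhdsWithin).exists
    filter_upwards [hlow η h2] with y hy
    exact lt_of_lt_of_le h1 hy
  · intro a ha
    have hlim : Tendsto (fun η : ℝ => (1 + η) ^ 3) (𝓝[>] 0) (𝓝 1) := by
      have : Tendsto (fun η : ℝ => (1 + η) ^ 3) (𝓝 0) (𝓝 ((1 + 0) ^ 3)) :=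
        Continuous.tendsto (by fun_prop) _
      simp only [add_zero, one_pow] at this
      exact this.mono_left nhdsWithin_le_nhds
    obtain ⟨η, h1, h2⟩ := ((hlim.eventually (gt_mem_nhds ha)).and self_mem_nhdsWithin).exists
    filter_upwards [hup η h2] with y hy
    exact lt_of_le_of_lt hy h1

end H70PNT
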