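import Mathlib
import Pool.Agent.Lib_helper70.PNT.Tauber

/-!
# The prime number theorem
-/

open MeasureTheory Filter Topology Set
open scoped ArithmeticFunction.vonMangoldt Chebyshev

namespace H70PNT

/-- `ψ(e^u) / e^u` -/
noncomputable def fpsi (u : ℝ) : ℝ := ψ (Real.exp u) * Real.exp (-u)

lemma fpsi_measurable : Measurable fpsi := by
  unfold fpsi
  have : Measurable ψ := Chebyshev.psi_mono.measurable
  fun_prop

lemma fpsi_nonneg (u : ℝ) : 0 ≤ fpsi u := mul_nonneg (Chebyshev.psi_nonneg _) (Real.exp_pos _).le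

lemma fpsi_le (u : ℝ) : fpsi u ≤ Real.log 4 + 4 := by
  unfold fpsi
  have h := Chebyshev.psi_le_const_mul_self (Real.exp_pos u).le
  calc _ ≤ (Real.log 4 + 4) * Real.exp u * Real.exp (-u) :=
        mul_le_mul_of_nonneg_right h (Real.exp_pos _).le
    _ = _ := by rw [mul_assoc, ← Real.exp_add]; simp

lemma fpsi_mono (u u' : ℝ) (_ : 0 ≤ u) (h : u ≤ u') : fpsi u * Real.exp (u - u') ≤ fpsi u' := by
  unfold fpsi
  have h1 : ψ (Real.exp u) ≤ ψ (Real.exp u') := Chebyshev.psi_mono (Real.exp_le_exp.mpr h)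
  calc _ = ψ (Real.exp u) * Real.exp (-u') := by
        rw [mul_assoc, ← Real.exp_add]; congr 2; ring
    _ ≤ _ := mul_le_mul_of_nonneg_right h1 (Real.exp_pos _).le

lemma psi_isBigO : (fun n : ℕ => ∑ k ∈ Finset.Icc 1 n, Λ k) =O[atTop] fun n : ℕ => (n : ℝ) ^ (1:ℝ) := by
  refine Asymptotics.IsBigO.of_bound (Real.log 4 + 4) ?_
  filter_upwards with n
  have h : ∑ k ∈ Finset.Icc 1 n, Λ k = ψ n := by
    unfold Chebyshev.psi
    rw [Nat.floor_natCast]
    rfl
  rw [h, Real.rpow_one, Real.norm_of_nonneg (Chebyshev.psi_nonneg _),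
    Real.norm_of_nonneg (Nat.cast_nonneg _)]
  exact Chebyshev.psi_le_const_mul_self (Nat.cast_nonneg _)

lemma LSeries_eq_int {s : ℂ} (hs : 0 < s.re) :
    LSeries (fun n => (Λ n : ℂ)) (1 + s)
      = (1 + s) * ∫ u in Ioi (0:ℝ), (fpsi u : ℂ) * Complex.exp (-(s * u)) := by
  have h := LSeries_eq_mul_integral_of_nonneg (fun n => Λ n) (r := 1) zero_le_one
    (s := 1 + s) (by simp [hs]) psi_isBigO (fun n => ArithmeticFunction.vonMangoldt_nonneg)
  rw [h]
  congr 1
  have h2 := integral_comp_exp_Ioi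
    (fun t : ℝ => (∑ k ∈ Finset.Icc 1 ⌊t⌋₊, ((Λ k : ℝ) : ℂ)) * (t : ℂ) ^ (-((1 + s) + 1))) 0
  rw [Real.exp_zero] at h2
  rw [← h2]
  refine setIntegral_congr_fun measurableSet_Ioi (fun u _ => ?_)
  have h3 : ∑ k ∈ Finset.Icc 1 ⌊Real.exp u⌋₊, ((Λ k : ℝ) : ℂ) = (ψ (Real.exp u) : ℂ) := by
    unfold Chebyshev.psi
    push_cast
    rfl
  simp only [h3, fpsi]
  have h4 : ((Real.exp u : ℝ) : ℂ) ^ (-((1 + s) + 1)) = Complex.exp (-((1 + s) + 1) * u) := by
    rw [Complex.cpow_def_of_ne_zero (by exact_mod_cast (Real.exp_pos u).ne'),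
      ← Complex.ofReal_log (Real.exp_pos u).le, Real.log_exp, mul_comm]
  rw [h4, Complex.real_smul]
  push_cast
  calc _ = (ψ (Real.exp u) : ℂ) * (Complex.exp u * Complex.exp (-((1 + s) + 1) * u)) := by ring
    _ = (ψ (Real.exp u) : ℂ) * (Complex.exp (-u) * Complex.exp (-(s * u))) := by
        rw [← Complex.exp_add, ← Complex.exp_add]; congr 2; ring
    _ = _ := by ring

/-- auxiliary function from Mathlib for the modulus `1` -/
noncomputable def H (z : ℂ) : ℂ :=
  ArithmeticFunction.vonMangoldt.LFunctionResidueClassAux (q := 1) 1 z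

lemma H_cont : ContinuousOn H {z | 1 ≤ z.re} :=
  ArithmeticFunction.vonMangoldt.continuousOn_LFunctionResidueClassAux (q := 1) (a := 1)

lemma H_eq {z : ℂ} (hz : 1 < z.re) : H z = LSeries (fun n => (Λ n : ℂ)) z - 1 / (z - 1) := by
  have h := ArithmeticFunction.vonMangoldt.eqOn_LFunctionResidueClassAux (q := 1) (a := 1)
    isUnit_one hz
  unfold H
  rw [h]
  have h2 : ∀ n, ArithmeticFunction.vonMangoldt.residueClass (1 : ZMod 1) n = Λ n := by
    intro n
    unfold ArithmeticFunction.vonMangoldt.residueClass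
    rw [indicator_apply, if_pos]
    exact Subsingleton.elim _ _
  simp only [h2]
  simp

/-- boundary function -/
noncomputable def G (s : ℂ) : ℂ := (H (1 + s) - 1) / (1 + s)

lemma G_cont : ContinuousOn G {s | 0 ≤ s.re} := by
  unfold G
  apply ContinuousOn.div
  · apply ContinuousOn.sub _ continuousOn_const
    refine H_cont.comp (Continuous.continuousOn (by fun_prop)) ?_
    intro s hs
    simp only [mem_setOf_eq, Complex.add_re, Complex.one_re] at hs ⊢
    linarith
  · exact Continuous.continuousOn (by fun_prop)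
  · intro s hs h
    have := congrArg Complex.re h
    simp only [mem_setOf_eq] at hs
    simp only [Complex.add_re, Complex.one_re, Complex.zero_re] at this
    linarith

lemma laplace {s : ℂ} (hs : 0 < s.re) :
    ∫ u in Ioi (0:ℝ), ((fpsi u - 1 : ℝ) : ℂ) * Complex.exp (-(s * u)) = G s := by
  have hs0 : s ≠ 0 := fun h => by simp [h] at hs
  have h1s : 1 + s ≠ 0 := fun h => by
    have := congrArg Complex.re h
    simp only [Complex.add_re, Complex.one_re, Complex.zero_re] at this
    linarith
  have i2 : IntegrableOn (fun u : ℝ => Complex.exp (-(s * u))) (Ioi 0) := by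
    have := integrableOn_exp_mul_complex_Ioi (a := -s) (by simpa using hs) 0
    refine this.congr_fun (fun x _ => ?_) measurableSet_Ioi
    simp
  have e2 : ∫ u in Ioi (0:ℝ), Complex.exp (-(s * u)) = 1 / s := by
    have := integral_exp_mul_complex_Ioi (a := -s) (by simpa using hs) 0
    simp only [neg_mul, Complex.ofReal_zero, mul_zero, neg_zero, Complex.exp_zero] at this
    rw [this]
    field_simp
  have i1 : IntegrableOn (fun u : ℝ => (fpsi u : ℂ) * Complex.exp (-(s * u))) (Ioi 0) := by
    refine Integrable.mono' (g := fun u => (Real.log 4 + 4) * ‖Complex.exp (-(s * u))‖)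
      (i2.norm.const_mul _) ?_ ?_
    · apply Measurable.aestronglyMeasurable
      have := fpsi_measurable
      fun_prop
    · filter_upwards with u
      rw [norm_mul, Complex.norm_real, Real.norm_of_nonneg (fpsi_nonneg u)]
      exact mul_le_mul_of_nonneg_right (fpsi_le u) (norm_nonneg _)
  have h1 : ∫ u in Ioi (0:ℝ), ((fpsi u - 1 : ℝ) : ℂ) * Complex.exp (-(s * u))
      = (∫ u in Ioi (0:ℝ), (fpsi u : ℂ) * Complex.exp (-(s * u)))
        - ∫ u in Ioi (0:ℝ), Complex.exp (-(s * u)) := by
    rw [← integral_sub i1 i2]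
    congr 1
    ext u
    push_cast
    ring
  have h2 := LSeries_eq_int hs
  have h3 : ∫ u in Ioi (0:ℝ), (fpsi u : ℂ) * Complex.exp (-(s * u))
      = LSeries (fun n => (Λ n : ℂ)) (1 + s) / (1 + s) := by
    rw [h2]
    field_simp
  rw [h1, h3, e2]
  unfold G
  rw [H_eq (by simpa using hs)]
  have : (1 + s - 1) = s := by ring
  rw [this]
  field_simp
  ring

theorem fpsi_tendsto : Tendsto fpsi atTop (𝓝 1) := by
  refine tauber (C := Real.log 4 + 4) fpsi_measurable fpsi_nonneg fpsi_le fpsi_mono ?_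
  intro lam hlam
  refine smoothed_tendsto_zero (b := fun u => fpsi u - 1) (C := Real.log 4 + 5) (G := G) ?_ ?_
    G_cont (fun s hs => laplace hs) hlam
  · exact fpsi_measurable.sub_const 1
  · intro u
    have h1 := fpsi_nonneg u
    have h2 := fpsi_le u
    rw [abs_le]
    constructor <;> linarith

/-- Prime number theorem for `ψ`. -/
theorem psi_tendsto : Tendsto (fun x : ℝ => ψ x / x) atTop (𝓝 1) := by
  have h := fpsi_tendsto.comp Real.tendsto_log_atTop
  refine h.congr' ?_
  filter_upwards [eventually_gt_atTop 0] with x hx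
  simp only [Function.comp, fpsi]
  rw [Real.exp_neg, Real.exp_log hx, div_eq_mul_inv]

/-- Prime number theorem for `θ`. -/
theorem theta_tendsto : Tendsto (fun x : ℝ => θ x / x) atTop (𝓝 1) := by
  have h1 : Tendsto (fun x : ℝ => (ψ x - θ x) / x) atTop (𝓝 0) := by
    have h2 := Chebyshev.isBigO_psi_sub_theta_sqrt
    have h3 : (fun x : ℝ => Real.sqrt x) =o[atTop] (fun x : ℝ => x) := by
      refine (Asymptotics.isLittleO_iff_tendsto' ?_).mpr ?_
      · filter_upwards [eventually_gt_atTop 0] with x hx h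
        exact absurd h hx.ne'
      · have h4 : Tendsto (fun x : ℝ => (Real.sqrt x)⁻¹) atTop (𝓝 0) :=
          tendsto_inv_atTop_zero.comp Real.tendsto_sqrt_atTop
        refine h4.congr' ?_
        filter_upwards [eventually_gt_atTop 0] with x hx
        rw [Real.sqrt_div_self', one_div]
    exact (h2.trans_isLittleO h3).tendsto_div_nhds_zero
  have h := psi_tendsto.sub h1
  rw [sub_zero] at h
  refine h.congr (fun x => ?_)
  ring

/-- **Prime number theorem**: `π(x) log x / x → 1`. -/
theorem pi_tendsto :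
    Tendsto (fun x : ℝ => (Nat.primeCounting ⌊x⌋₊ : ℝ) * Real.log x / x) atTop (𝓝 1) := by
  have h1 := Chebyshev.primeCounting_sub_theta_div_log_isBigO
  have h2 : (fun x : ℝ => x / Real.log x ^ 2) =o[atTop] (fun x : ℝ => x / Real.log x) := by
    refine (Asymptotics.isLittleO_iff_tendsto' ?_).mpr ?_
    · filter_upwards [eventually_gt_atTop 1] with x hx h
      have : 0 < Real.log x := Real.log_pos hx
      have : x / Real.log x ≠ 0 := by positivity
      exact absurd h this
    · have h4 : Tendsto (fun x : ℝ => (Real.log x)⁻¹) atTop (𝓝 0) :=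
        tendsto_inv_atTop_zero.comp Real.tendsto_log_atTop
      refine h4.congr' ?_
      filter_upwards [eventually_gt_atTop 1] with x hx
      have : 0 < Real.log x := Real.log_pos hx
      field_simp
  have h3 := (h1.trans_isLittleO h2).tendsto_div_nhds_zero
  have h := h3.add theta_tendsto
  rw [zero_add] at h
  refine h.congr' ?_
  filter_upwards [eventually_gt_atTop 1] with x hx
  have : 0 < Real.log x := Real.log_pos hx
  field_simp
  ring

end H70PNT
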